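import Pool.Agent.R276.TR.Fin
import Pool.Agent.R276.TR.Calc
import Pool.Agent.R276.TR.Eig
import Pool.Agent.R276.TR.Qnt
import Pool.Agent.R276.TR.Cpt

/-!
# MP_49c4d9_an: reductive Toeplitz operators with Hölder symbols are normal

Let `T` be a bounded operator on a Hilbert space `H` which has, with respect to an orthonormal basis
`e 0, e 1, ...`, the Toeplitz matrix of a Hölder continuous function `φ` on the circle of exponent greater
than one half: `⟪e i, T e j⟫` is the Fourier coefficient of `φ` of index `i - j`. If `T` is reductive, then `T` is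
normal.

Proof. Let `z` be off the curve `φ(𝕋)`. If the winding number of `φ - z` is not zero, then there is an
absolutely summable eigenvector of `T` or of its adjoint (starting library, `Y283.TO`). By reductivity it is
an eigenvector of both operators. With `f = ∑ u_j e^{ijt}` all Fourier coefficients of `(φ - z) |f|²` vanish, so
`f = 0`, a contradiction. So the winding number is zero, `φ - z = exp (a + b)` with `a` analytic and `b`
coanalytic, and `(T - z)⁻¹ = T_{exp (-a)} T_{exp (-b)}` has norm at most `exp (‖a‖ + ‖b‖)`, where the estimates of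
the starting library show that `‖a‖ + ‖b‖` is locally integrable in `z`. So the spectrum is the null set
`φ(𝕋)` and the resolvent is locally log-integrable. The self-commutator is compact, and the theorem on
reductive operators of the starting library (`W610.HY.Reduct`) applies.

The parts of the formal proof were written by helpers 422 (Toeplitz operators), 371 (common eigenvectors),
310 (factorisation with bounds; compactness) and 276 (idea, statements, assembly).
-/

set_option autoImplicit false

open scoped NNReal InnerProductSpace

namespace Pool.Agent.Results.MP_49c4d9_an.ReductiveToeplitz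

variable {H : Type} [NormedAddCommGroup H] [InnerProductSpace ℂ H] [CompleteSpace H]

/-- Every closed invariant subspace of `T` is invariant under the adjoint. -/
def IsReductive (T : H →L[ℂ] H) : Prop :=
  ∀ V : Submodule ℂ H, IsClosed (V : Set H) → (∀ x ∈ V, T x ∈ V) →
    ∀ x ∈ V, ContinuousLinearMap.adjoint T x ∈ V

/-- `T` has the Toeplitz matrix of the symbol `φ` with respect to the orthonormal basis `e`: the entry at
`(i, j)` is the Fourier coefficient of `φ` of index `i - j`. -/
def HasToeplitzMatrix (e : HilbertBasis ℕ ℂ H) (φ : UnitAddCircle → ℂ) (T : H →L[ℂ] H) : Prop :=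
  ∀ i j : ℕ, ⟪e i, T (e j)⟫_ℂ = fourierCoeff φ ((i : ℤ) - j)

/-- **Reductive Toeplitz operators with Hölder symbols of exponent greater than `1/2` are normal.** -/
theorem result (H : Type) [NormedAddCommGroup H] [InnerProductSpace ℂ H] [CompleteSpace H]
    (e : HilbertBasis ℕ ℂ H) (φ : UnitAddCircle → ℂ) (C α : ℝ≥0) (hα : 1 / 2 < α)
    (hφ : HolderWith C α φ) (T : H →L[ℂ] H) (hT : HasToeplitzMatrix e φ T)
    (hred : IsReductive T) : IsStarNormal T := by
  have hα0 : 0 < α := lt_trans (by norm_num) hα
  obtain ⟨L, q, hL, hq, hq2, hHD⟩ := Pool.Agent.Y283.TO.HD_of_holder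
    ⟨φ, hφ.continuous hα0⟩ C α hα hφ
  exact Pool.Agent.R276.TR.Fin.main Pool.Agent.R276.TR.Calc.main Pool.Agent.R276.TR.Cpt.main
    Pool.Agent.R276.TR.Eig.main Pool.Agent.R276.TR.Qnt.main e ⟨φ, hφ.continuous hα0⟩ L q hL hq hq2
    hHD T hT hred

end Pool.Agent.Results.MP_49c4d9_an.ReductiveToeplitz
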