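import Pool.Agent.R229.WC.Short
import Pool.Agent.R229.WC.Main
import Pool.Agent.R229.WC.A
import Pool.Agent.R229.WC.B
import Pool.Agent.R229.WC.C
import Pool.Agent.R229.WC.D1
import Pool.Agent.R229.WC.D2
import Pool.Agent.R229.WC.F
import Pool.Agent.R229.WC.G1
import Pool.Agent.R229.WC.G2

set_option autoImplicit false

namespace Pool.Agent.Results.MP_49c4d9_an.ReductiveWeightedComposition

open Pool.Agent.R229.WC

theorem core {Ψ : Set (ℂ → ℂ)}
    (hΨ : Short.CommonPoint Ψ ∨ ∃ φ : ℂ → ℂ, Short.SelfMap φ ∧ Ψ = Set.range fun k : ℕ => φ^[k])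
    (T : F96.H2 →L[ℂ] F96.H2) (hT : InWeakAlg (WCO Ψ) T) (hR : Reductive T) :
    ∀ x, ‖T x‖ = ‖ContinuousLinearMap.adjoint T x‖ := by
  have h : CommonPoint Ψ := by
    rcases hΨ with h | ⟨φ, hφ, rfl⟩
    · exact h
    · exact stmtF φ hφ
  exact main stmtA stmtB stmtC stmtD1 (stmtD2 stmtC) stmtG1 stmtG2 stmtG3 stmtG4 h hT hR

/-- **Reductive operators in weakly closed algebras of weighted composition operators are
normal.** Let `Ψ` be a set of holomorphic self-maps of the unit disc which fix a common point of the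
disc or satisfy Julia's inequality (with coefficient at most `1`) at a common point of the circle, or
let `Ψ` be the set of all iterates of one arbitrary holomorphic self-map. Every reductive operator
in the weakly closed algebra generated by all bounded weighted composition operators
`f ↦ u · (f ∘ ψ)`, `ψ ∈ Ψ`, on the Hardy space `H²` is normal. -/
theorem result : ∀ Ψ : Set (ℂ → ℂ),
    (Short.CommonPoint Ψ ∨
      ∃ φ : ℂ → ℂ, Short.SelfMap φ ∧ Ψ = Set.range fun k : ℕ => φ^[k]) →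
    ∀ T : Short.Op, Short.InWeakAlg (Short.WCO Ψ) T → Short.Reductive T → Short.Normal T := by
  intro Ψ hΨ T hT hR
  let T' : F96.H2 →L[ℂ] F96.H2 := T
  let 𝒜 : Set (F96.H2 →L[ℂ] F96.H2) := {A | A ∈ Algebra.adjoin ℂ (WCO Ψ)}
  have h𝒜 : Short.IsOpAlg (H := F96.H2) 𝒜 := by
    refine ⟨?_, ?_, ?_, ?_⟩
    · exact (Algebra.adjoin ℂ (WCO Ψ)).one_mem
    · intro A hA B hB
      exact (Algebra.adjoin ℂ (WCO Ψ)).add_mem (x := A) (y := B) hA hB
    · intro c A hA
      exact (Algebra.adjoin ℂ (WCO Ψ)).smul_mem (x := A) hA c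
    · intro A hA B hB
      exact (Algebra.adjoin ℂ (WCO Ψ)).mul_mem (x := A) (y := B) hA hB
  have hW𝒜 : WCO Ψ ⊆ 𝒜 := fun A hA => Algebra.subset_adjoin hA
  have hT' : InWeakAlg (WCO Ψ) T' := by
    intro n x y ε hε
    obtain ⟨A, hA, h⟩ := hT 𝒜 h𝒜 hW𝒜 n x y ε hε
    refine ⟨A, hA, fun i => ?_⟩
    have h2 := h i
    rw [inner_sub_right]
    exact h2
  obtain ⟨S, hS, hM⟩ := hR
  let S' : F96.H2 →L[ℂ] F96.H2 := S
  have hSad : S' = ContinuousLinearMap.adjoint T' := by
    rw [ContinuousLinearMap.eq_adjoint_iff]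
    exact fun x y => hS x y
  have hR' : Reductive T' := by
    intro M hMc hinv x hx
    rw [← hSad]
    exact hM M hMc hinv x hx
  have hn := core hΨ T' hT' hR'
  have hnorm : IsStarNormal T' := ContinuousLinearMap.isStarNormal_iff_norm_eq_adjoint.2 hn
  refine ⟨S, hS, fun x => ?_⟩
  have hc := hnorm.star_comm_self
  have hc' := congrArg (fun B : F96.H2 →L[ℂ] F96.H2 => B x) hc.eq
  have hst : star T' = S' := by rw [hSad]; rfl
  rw [hst] at hc'
  exact hc'.symm

end Pool.Agent.Results.MP_49c4d9_an.ReductiveWeightedComposition
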