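import Mathlib
import Pool.Agent.Y187.RF.Main

/-!
# MP_49c4d9_an: the reductive operator problem relative to a factor of type II_1

For an operator `A` of a von Neumann algebra `N` one can consider only the invariant subspaces which are
affiliated with `N`, that is the ranges of the projections of `N`; for `N = B(H)` these are all closed
invariant subspaces. In a factor of type II_1 there is an operator all of whose invariant subspaces
affiliated with the factor are reducing (in fact `0` and the whole space are the only ones), in every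
representation of the factor, but which is not normal: it is quasinilpotent and different from `0`.

The proof is the assembly of the starting developments `H728R2.Q77` and `Y187/RF`.
-/

set_option autoImplicit false

open scoped InnerProductSpace
open Pool.Agent.Y187.RF

namespace Pool.Agent.Results.MP_49c4d9_an.RelativeToFactor

section

variable {H K : Type} [NormedAddCommGroup H] [InnerProductSpace ℂ H] [CompleteSpace H]
  [NormedAddCommGroup K] [InnerProductSpace ℂ K] [CompleteSpace K]

/-- The operator `A` is reductive relative to the von Neumann algebra `N`: each projection of `N` whose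
range is invariant under `A` commutes with `A`, that is, its range is reducing for `A`. -/
def ReductiveIn (N : VonNeumannAlgebra K) (A : K →L[ℂ] K) : Prop :=
  ∀ P ∈ N, IsStarProjection P → A * P = P * A * P → A * P = P * A

/-- The restriction of `ρ` to `M` is an isomorphism of the von Neumann algebra `M` onto the von Neumann
algebra `N`. -/
structure IsIso (M : VonNeumannAlgebra H) (N : VonNeumannAlgebra K)
    (ρ : (H →L[ℂ] H) → (K →L[ℂ] K)) : Prop where
  bij : Set.BijOn ρ (M : Set (H →L[ℂ] H)) (N : Set (K →L[ℂ] K))
  add : ∀ x ∈ M, ∀ y ∈ M, ρ (x + y) = ρ x + ρ y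
  smul : ∀ c : ℂ, ∀ x ∈ M, ρ (c • x) = c • ρ x
  mul : ∀ x ∈ M, ∀ y ∈ M, ρ (x * y) = ρ x * ρ y
  star : ∀ x ∈ M, ρ (star x) = star (ρ x)

/-- The operator `A` has no invariant subspaces affiliated with `N` except `0` and `K`; it is reductive
relative to `N`, but it is not normal. -/
def Bad (N : VonNeumannAlgebra K) (A : K →L[ℂ] K) : Prop :=
  NoInvariantProjection N A ∧ ReductiveIn N A ∧ ¬ IsStarNormal A

/-- In every representation of `M` as a von Neumann algebra `N` on a Hilbert space the image of `T` is as
in `Bad`. -/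
def BadInEveryRepresentation (M : VonNeumannAlgebra H) (T : H →L[ℂ] H) : Prop :=
  ∀ (K : Type) [NormedAddCommGroup K] [InnerProductSpace ℂ K] [CompleteSpace K]
    (N : VonNeumannAlgebra K) (ρ : (H →L[ℂ] H) → (K →L[ℂ] K)), IsIso M N ρ → Bad N (ρ T)

/-- `T` is quasinilpotent and different from `0`, all its moments `τ(T^m) = ⟪ξ, T^m ξ⟫`, `m ≥ 1`, are `0`,
and its Brown measure is the point mass at `0`. -/
def Quasinilpotent (ξ : H) (T : H →L[ℂ] H) : Prop :=
  T ≠ 0 ∧ spectrum ℂ T = {0} ∧ (∀ m : ℕ, 1 ≤ m → ⟪ξ, (T ^ m) ξ⟫_ℂ = 0) ∧ BrownMeasureAtZero ξ T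

/-- `T` is an element of the factor `M` of type II_1, in standard form on the separable space `H` with the
trace vector `ξ`; it is quasinilpotent and different from `0`, with vanishing moments and Brown measure
the point mass at `0`; in every representation of `M` the operator has no nontrivial invariant subspaces
affiliated with the factor, so it is reductive relative to the factor, but it is not normal. -/
def Counterexample (M : VonNeumannAlgebra H) (ξ : H) (T : H →L[ℂ] H) : Prop :=
  TopologicalSpace.SeparableSpace H ∧ IsIIOneFactor M ξ ∧ T ∈ M ∧ Quasinilpotent ξ T ∧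
    BadInEveryRepresentation M T

theorem IsIso.zero {M : VonNeumannAlgebra H} {N : VonNeumannAlgebra K}
    {ρ : (H →L[ℂ] H) → (K →L[ℂ] K)} (h : IsIso M N ρ) : ρ 0 = 0 := by
  have h1 := h.smul 0 0 (zero_mem _)
  rwa [zero_smul, zero_smul] at h1

theorem IsIso.one {M : VonNeumannAlgebra H} {N : VonNeumannAlgebra K}
    {ρ : (H →L[ℂ] H) → (K →L[ℂ] K)} (h : IsIso M N ρ) : ρ 1 = 1 := by
  obtain ⟨x, hx, hx1⟩ := h.bij.surjOn (one_mem N : (1 : K →L[ℂ] K) ∈ N)
  have h1 := h.mul 1 (one_mem _) x hx
  rw [one_mul, hx1, mul_one] at h1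
  exact h1.symm

/-- transfer to another representation -/
theorem IsIso.noInvariant {M : VonNeumannAlgebra H} {N : VonNeumannAlgebra K}
    {ρ : (H →L[ℂ] H) → (K →L[ℂ] K)} (h : IsIso M N ρ) {T : H →L[ℂ] H} (hTM : T ∈ M)
    (hT : NoInvariantProjection M T) : NoInvariantProjection N (ρ T) := by
  intro P hP hPp hTP
  obtain ⟨p, hp, rfl⟩ := h.bij.surjOn hP
  have hp' : p ∈ M := hp
  have e1 : p * p = p := by
    refine h.bij.injOn (mul_mem hp' hp') hp ?_
    rw [h.mul p hp' p hp']
    exact hPp.1
  have e2 : Star.star p = p := by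
    refine h.bij.injOn (star_mem hp') hp ?_
    rw [h.star p hp']
    exact hPp.2
  have e3 : T * p = p * T * p := by
    refine h.bij.injOn (mul_mem hTM hp') (mul_mem (mul_mem hp' hTM) hp') ?_
    rw [h.mul T hTM p hp', h.mul _ (mul_mem hp' hTM) p hp', h.mul p hp' T hTM]
    exact hTP
  rcases hT p hp' ⟨e1, e2⟩ e3 with h1 | h1
  · left
    rw [h1, h.zero]
  · right
    rw [h1, h.one]

end

/-- **The reductive operator problem relative to a factor of type II_1 has a negative answer.** -/
theorem result : ∃ (H : Type) (_ : NormedAddCommGroup H) (_ : InnerProductSpace ℂ H)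
    (_ : CompleteSpace H) (M : VonNeumannAlgebra H) (ξ : H) (T : H →L[ℂ] H),
    Counterexample M ξ T := by
  obtain ⟨T, hT, h0, hs, hm, hb, hP⟩ := exists_T
  have hnn : ¬ IsStarNormal T := not_normal h0 hs
  refine ⟨Pool.Agent.H941R2.CM.Hs, inferInstance, inferInstance, inferInstance, _, _, T,
    separable_Hs, isIIOne, hT, ⟨h0, hs, hm, hb⟩, ?_⟩
  intro K _ _ _ N ρ hρ
  have h1 : NoInvariantProjection N (ρ T) := hρ.noInvariant hT hP
  refine ⟨h1, ?_, ?_⟩
  · intro P hPN hPp hinv
    rcases h1 P hPN hPp hinv with h | h
    · rw [h, mul_zero, zero_mul]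
    · rw [h, mul_one, one_mul]
  · intro hn
    apply hnn
    constructor
    refine hρ.bij.injOn (mul_mem (star_mem hT) hT) (mul_mem hT (star_mem hT)) ?_
    rw [hρ.mul _ (star_mem hT) _ hT, hρ.mul _ hT _ (star_mem hT), hρ.star _ hT]
    exact hn.star_comm_self

end Pool.Agent.Results.MP_49c4d9_an.RelativeToFactor
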