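import Pool.Agent.R276.CP.Fin
import Pool.Agent.R276.CP.Up
import Pool.Agent.R276.CP.Rs
import Pool.Agent.R276.CP.Pot
import Pool.Agent.R276.CP.Loc
import Pool.Agent.R276.CP.Fat
import Pool.Agent.R276.CP.Sec
import Pool.Agent.R276.CP.Had

/-!
# MP_49c4d9_an: reductive Schatten class perturbations of normal operators

`N` normal on a complex Hilbert space, its spectrum of upper Minkowski dimension less than two, `K` in a
Schatten class `C_p` with `0 < p < 2`. For almost every complex `κ`, for almost every real `κ` and more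
generally almost everywhere for all measures with locally bounded logarithmic potential, the operator
`N + κ K` is normal as soon as it is reductive.

The resolvent of `N + κ K` is locally log-integrable for these `κ` (see
`Results/MP_5ac32f_an/SchattenCouplings.lean` for the proof and the authors of its parts: helpers 276, 999,
515, 422, 746, 973, 644); the self-commutator of `N + κ K` is compact, and the theorem on reductive
operators with locally log-integrable resolvent and compact self-commutator of the starting library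
(`W610.HY.Reduct`) applies.
-/

set_option autoImplicit false

open MeasureTheory Metric
open scoped InnerProductSpace ENNReal NNReal

namespace Pool.Agent.Results.MP_49c4d9_an.SchattenReductive

/-- the upper Minkowski dimension of `E` is less than two: the closed `δ`-neighbourhood of `E` has area
at most `C δ^ε` for `0 < δ ≤ 1` -/
def Thin (E : Set ℂ) : Prop :=
  ∃ C ε : ℝ, 0 < ε ∧ ∀ δ : ℝ, 0 < δ → δ ≤ 1 →
    volume {z : ℂ | infDist z E ≤ δ} ≤ ENNReal.ofReal (C * δ ^ ε)

/-- The measure `m` has no atoms, and on every disc `|t| < R` it is finite and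
`∫ log⁺ (1 / |t - s|) dm(t)` is bounded in `s ∈ ℂ`. -/
def BoundedPotential (m : Measure ℂ) : Prop :=
  (∀ s : ℂ, m {s} = 0) ∧
  ∀ R : ℝ, m (ball (0:ℂ) R) ≠ ⊤ ∧ ∃ C : ℝ≥0, ∀ s : ℂ,
    ∫⁻ t in ball (0:ℂ) R, ENNReal.ofReal (Real.posLog ‖t - s‖⁻¹) ∂m ≤ C

section Defs

variable {H : Type} [NormedAddCommGroup H] [InnerProductSpace ℂ H]

/-- `K` is in the Schatten class `C_p`, `0 < p ≤ 2`: for some orthonormal basis `b` of `H` the sum of
the numbers `‖K b_i‖ ^ p` is finite. -/
def Schatten (K : H →L[ℂ] H) (p : ℝ) : Prop :=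
  ∃ (ι : Type) (b : HilbertBasis ι ℂ H), Summable fun i => ‖K (b i)‖ ^ p

/-- Every closed invariant subspace of `T` is invariant under the adjoint. -/
def IsReductive [CompleteSpace H] (T : H →L[ℂ] H) : Prop :=
  ∀ V : Submodule ℂ H, IsClosed (V : Set H) → (∀ x ∈ V, T x ∈ V) →
    ∀ x ∈ V, ContinuousLinearMap.adjoint T x ∈ V

/-- The conclusion of the theorem for one operator. -/
def Good [CompleteSpace H] (T : H →L[ℂ] H) : Prop :=
  IsReductive T → IsStarNormal T

end Defs

/-- **Reductive Schatten class perturbations of normal operators with thin spectrum.** Let `N` be normal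
on a Hilbert space, let its spectrum have upper Minkowski dimension less than two, and let `K` be in the
Schatten class `C_p`, `0 < p < 2`. Then `N + κ K` is normal if it is reductive, for almost every `κ` with
respect to every atomless measure with bounded logarithmic potential, in particular for almost every
complex and for almost every real `κ`. -/
theorem result (H : Type) [NormedAddCommGroup H] [InnerProductSpace ℂ H] [CompleteSpace H]
    (N K : H →L[ℂ] H) (p : ℝ) (hN : IsStarNormal N) (ht : Thin (spectrum ℂ N))
    (hp0 : 0 < p) (hp2 : p < 2) (hK : Schatten K p) :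
    (∀ m : Measure ℂ, BoundedPotential m → ∀ᵐ κ ∂m, Good (N + κ • K)) ∧
    (∀ᵐ κ : ℂ, Good (N + κ • K)) ∧
    (∀ᵐ κ : ℝ, Good (N + (κ : ℂ) • K)) := by
  have main : ∀ m : Measure ℂ, Pool.Agent.R276.CP.LogBd m → ∀ᵐ κ ∂m, Good (N + κ • K) := by
    intro m hm
    have hS : Pool.Agent.R276.CP.Sections K p :=
      Pool.Agent.R276.CP.Sec.main H K p hp0 hp2.le hK
    obtain ⟨hKc, hKa⟩ := Pool.Agent.R276.CP.Fin.compact_of_sections hS
    filter_upwards [Pool.Agent.R276.CP.Fin.ae_logInt
      (Pool.Agent.R276.CP.Fat.main (Pool.Agent.R276.CP.Up.main Pool.Agent.R276.CP.Had.main)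
        (Pool.Agent.R276.CP.Rs.main Pool.Agent.R276.CP.Had.main) Pool.Agent.R276.CP.Pot.main)
      Pool.Agent.R276.CP.Sec.main Pool.Agent.R276.CP.Loc.main N K hN ht p hp0 hp2 hK m hm] with κ h
    intro hred
    refine Pool.Agent.R276.CP.Fin.reductive N (κ • K) hN (hKc.smul κ) ?_ h hred
    rw [map_smulₛₗ]
    exact hKa.smul _
  refine ⟨?_, ?_, ?_⟩
  · intro m hm
    refine main m fun R => ?_
    obtain ⟨h0, hm⟩ := hm
    obtain ⟨h1, C, hC⟩ := hm R
    refine ⟨C + (m (ball (0:ℂ) R)).toNNReal, ?_, fun s => ?_⟩
    · rw [ENNReal.coe_add, ENNReal.coe_toNNReal h1]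
      exact le_add_self
    · calc ∫⁻ t in ball (0:ℂ) R, Pool.Agent.R276.CP.lm ‖t - s‖ ∂m
          = ∫⁻ t in ball (0:ℂ) R, ENNReal.ofReal (Real.posLog ‖t - s‖⁻¹) ∂m := by
            refine lintegral_congr_ae (ae_restrict_of_ae ?_)
            have h2 : ∀ᵐ t ∂m, t ≠ s := by
              rw [ae_iff]
              simpa using h0 s
            filter_upwards [h2] with t ht
            unfold Pool.Agent.R276.CP.lm
            rw [if_neg (by simpa [sub_eq_zero] using ht)]
        _ ≤ C := hC s
        _ ≤ _ := by rw [ENNReal.coe_add]; exact le_self_add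
  · exact main volume Pool.Agent.Y891.NK.main_vol.1
  · have h := main (Measure.map (fun t : ℝ => (t : ℂ)) volume) Pool.Agent.Y891.NK.main_vol.2
    exact ae_of_ae_map Complex.continuous_ofReal.measurable.aemeasurable h

end Pool.Agent.Results.MP_49c4d9_an.SchattenReductive
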